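import Pool.Agent.Helper16.SD.GoalsD
import Pool.Agent.Helper17.TH.INS0

/-!
Packet SD-K_PSI (helper4): existence of `Ψ`.
-/

set_option autoImplicit false

namespace Pool.Agent.Helper4.SD.K_PSI

open NumberField Module TensorProduct
open Pool.Agent.Helper51.SigLeo Pool.Agent.Helper16.SD
open Pool.Agent.Helper17.TH (ug exO exO_tmul)

section

variable {p : ℕ} [Fact p.Prime] (O : Type) [CommRing O] (k : ℕ)

theorem pk_zero : ((p : O ⧸ Ideal.span {(p : O) ^ k}) ^ k) = 0 := by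
  have h1 : (p : O ⧸ Ideal.span {(p : O) ^ k}) ^ k =
      Ideal.Quotient.mk (Ideal.span {(p : O) ^ k}) ((p : O) ^ k) := by
    rw [map_pow, map_natCast]
  rw [h1, Ideal.Quotient.eq_zero_iff_mem]
  exact Ideal.mem_span_singleton_self _

/-- `ZMod (p^k) → O/p^k` -/
noncomputable def cc : ZMod (p ^ k) →+ (O ⧸ Ideal.span {(p : O) ^ k}) :=
  ZMod.lift (p ^ k) ⟨Int.castAddHom _, by
    have h1 : ((((p ^ k : ℕ) : ℤ)) : O ⧸ Ideal.span {(p : O) ^ k}) = 0 := by
      push_cast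
      exact pk_zero O k
    exact h1⟩

theorem cc_natCast (n : ℕ) : cc O k ((n : ℕ) : ZMod (p ^ k)) =
    ((n : ℕ) : O ⧸ Ideal.span {(p : O) ^ k}) := by
  have h1 := ZMod.lift_coe (p ^ k) (A := O ⧸ Ideal.span {(p : O) ^ k})
    ⟨Int.castAddHom _, by
      have h1 : ((((p ^ k : ℕ) : ℤ)) : O ⧸ Ideal.span {(p : O) ^ k}) = 0 := by
        push_cast
        exact pk_zero O k
      exact h1⟩ (n : ℤ)
  have h2 : (((n : ℤ) : ℤ) : ZMod (p ^ k)) = (n : ZMod (p ^ k)) := by push_cast; rfl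
  rw [h2] at h1
  refine h1.trans ?_
  show (((n : ℤ) : ℤ) : O ⧸ Ideal.span {(p : O) ^ k}) = _
  push_cast
  rfl

theorem cc_mul [Algebra ℤ_[p] O] (a : ℤ_[p]) (t : ZMod (p ^ k))
    (q : O ⧸ Ideal.span {(p : O) ^ k}) :
    cc O k (PadicInt.toZModPow k a * t) * q = algebraMap ℤ_[p] O a • (cc O k t * q) := by
  obtain ⟨m, hm⟩ : ∃ m : ℕ, PadicInt.toZModPow k a = (m : ZMod (p ^ k)) :=
    ⟨(PadicInt.toZModPow k a).val, (ZMod.natCast_zmod_val _).symm⟩
  have h1 : a - (m : ℤ_[p]) ∈ Ideal.span {(p : ℤ_[p]) ^ k} := by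
    rw [← PadicInt.ker_toZModPow, RingHom.mem_ker, map_sub, hm, map_natCast, sub_self]
  obtain ⟨b, hb⟩ := Ideal.mem_span_singleton'.mp h1
  have h2 : algebraMap ℤ_[p] O a = algebraMap ℤ_[p] O b * (p : O) ^ k + (m : O) := by
    have : a = b * (p : ℤ_[p]) ^ k + (m : ℤ_[p]) := by rw [hb]; ring
    rw [this, map_add, map_mul, map_pow, map_natCast, map_natCast]
  have h3 : ∀ z : O ⧸ Ideal.span {(p : O) ^ k}, algebraMap ℤ_[p] O a • z = m • z := by
    intro z
    rw [h2, add_smul, mul_smul, Nat.cast_smul_eq_nsmul]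
    have h4 : (p : O) ^ k • z = 0 := by
      rw [Algebra.smul_def]
      have : algebraMap O (O ⧸ Ideal.span {(p : O) ^ k}) ((p : O) ^ k) = 0 := by
        rw [map_pow, map_natCast]
        exact pk_zero O k
      rw [this, zero_mul]
    rw [h4, smul_zero, zero_add]
  rw [h3, hm, ← nsmul_eq_mul, map_nsmul, smul_mul_assoc]

variable {U : Type} [AddCommGroup U]

/-- the `O`-linear extension of a homomorphism to `ZMod (p^k)` -/
noncomputable def pH (κ : U →+ ZMod (p ^ k)) : (O ⊗[ℤ] U) →+ (O ⧸ Ideal.span {(p : O) ^ k}) :=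
  (TensorProduct.lift (LinearMap.mk₂ ℤ
    (fun (o : O) (u : U) => cc O k (κ u) * Ideal.Quotient.mk (Ideal.span {(p : O) ^ k}) o)
    (fun a b u => by rw [map_add, mul_add])
    (fun c a u => by rw [map_zsmul, mul_smul_comm])
    (fun a u v => by rw [map_add, map_add, add_mul])
    (fun c a u => by rw [map_zsmul, map_zsmul, smul_mul_assoc]))).toAddMonoidHom

theorem pH_tmul (κ : U →+ ZMod (p ^ k)) (o : O) (u : U) : pH O k κ (o ⊗ₜ u) =
    cc O k (κ u) * Ideal.Quotient.mk (Ideal.span {(p : O) ^ k}) o := rfl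

theorem pH_smul (κ : U →+ ZMod (p ^ k)) (o : O) (z : O ⊗[ℤ] U) :
    pH O k κ (o • z) = o • pH O k κ z := by
  induction z using TensorProduct.induction_on with
  | zero => rw [smul_zero, map_zero, smul_zero]
  | add x y hx hy => rw [smul_add, map_add, hx, hy, map_add, smul_add]
  | tmul c a =>
    rw [TensorProduct.smul_tmul', pH_tmul, pH_tmul, smul_eq_mul, map_mul, Algebra.smul_def]
    have : algebraMap O (O ⧸ Ideal.span {(p : O) ^ k}) o =
      Ideal.Quotient.mk (Ideal.span {(p : O) ^ k}) o := rfl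
    rw [this]
    ring

theorem pH_act [Algebra ℤ_[p] O] (κ κ' : U →+ ZMod (p ^ k)) (f : U →+ U) (a : ℤ_[p])
    (h : ∀ u, κ' (f u) = PadicInt.toZModPow k a * κ u) (z : O ⊗[ℤ] U) :
    pH O k κ' (exO O f z) = algebraMap ℤ_[p] O a • pH O k κ z := by
  induction z using TensorProduct.induction_on with
  | zero => rw [map_zero, map_zero, map_zero, smul_zero]
  | add x y hx hy => rw [map_add, map_add, hx, hy, map_add, smul_add]
  | tmul c u => rw [exO_tmul, pH_tmul, pH_tmul, h, cc_mul]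

theorem pH_add (κ κ' κ'' : U →+ ZMod (p ^ k)) (h : ∀ u, κ'' u = κ u + κ' u) (z : O ⊗[ℤ] U) :
    pH O k κ'' z = pH O k κ z + pH O k κ' z := by
  induction z using TensorProduct.induction_on with
  | zero => rw [map_zero, map_zero, map_zero, add_zero]
  | add x y hx hy =>
    rw [map_add, hx, hy, map_add, map_add]
    abel
  | tmul c u => rw [pH_tmul, pH_tmul, pH_tmul, h, map_add, add_mul]

theorem pH_ker [Algebra ℤ_[p] O] (κ : U →+ ZMod (p ^ k)) (ι : Type) [Fintype ι]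
    (b : Basis ι ℤ_[p] O) (e : ι → U) :
    pH O k κ (∑ i, b i ⊗ₜ e i) = 0 ↔ ∀ i, κ (e i) = 0 := by
  rw [map_sum]
  constructor
  · intro h i
    obtain ⟨n, hn⟩ : ∃ n : ι → ℕ, ∀ i, κ (e i) = (n i : ZMod (p ^ k)) :=
      ⟨fun i => (κ (e i)).val, fun i => (ZMod.natCast_zmod_val _).symm⟩
    have h1 : ∑ i, pH O k κ (b i ⊗ₜ e i) =
        Ideal.Quotient.mk (Ideal.span {(p : O) ^ k}) (∑ i, (n i : ℤ_[p]) • b i) := by
      rw [map_sum]
      refine Finset.sum_congr rfl fun i _ => ?_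
      rw [pH_tmul, hn, cc_natCast, Nat.cast_smul_eq_nsmul, map_nsmul, nsmul_eq_mul]
    rw [h1, Ideal.Quotient.eq_zero_iff_mem] at h
    obtain ⟨y, hy⟩ := Ideal.mem_span_singleton'.mp h
    have h2 : (p : ℤ_[p]) ^ k • y = ∑ i, (n i : ℤ_[p]) • b i := by
      rw [← hy, Algebra.smul_def, map_pow, map_natCast, mul_comm]
    have h3 := congrArg (fun x => b.repr x i) h2
    simp only [map_smul, map_sum, Basis.repr_self, Finsupp.smul_single, smul_eq_mul, mul_one,
      Finsupp.smul_apply, Finsupp.finset_sum_apply] at h3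
    rw [Finset.sum_eq_single i] at h3
    · rw [Finsupp.single_eq_same] at h3
      rw [hn, ← map_natCast (PadicInt.toZModPow k), ← h3, map_mul, map_pow, map_natCast]
      have : ((p : ZMod (p ^ k)) ^ k) = 0 := by
        rw [← Nat.cast_pow, ZMod.natCast_self]
      rw [this, zero_mul]
    · intro j _ hj
      rw [Finsupp.single_eq_of_ne]
      first
        | exact hj
        | exact hj.symm
    · intro hi
      exact absurd (Finset.mem_univ i) hi
  · intro h
    refine Finset.sum_eq_zero fun i _ => ?_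
    rw [pH_tmul, h, map_zero, zero_mul]

end

/-- the Kummer symbols of the units -/
noncomputable def kap (hS : K_SPEC) {p : ℕ} [Fact p.Prime] {K : Type} [Field K] [NumberField K]
    {k : ℕ} {ζ : AlgebraicClosure K} (hζ : IsPrimitiveRoot ζ (p ^ k))
    {E M : IntermediateField K (AlgebraicClosure K)} (hEM : E ≤ M) (hζM : ζ ∈ M)
    (h : AlgebraicClosure K ≃ₐ[K] AlgebraicClosure K) (hh : ∀ x ∈ M, h x = x) :
    Additive (𝓞 E)ˣ →+ ZMod (p ^ k) :=
  AddMonoidHom.mk' (fun u => kum p k ζ (((u.toMul : (𝓞 E)ˣ) : E) : AlgebraicClosure K) h)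
    (fun u v => by
      have h0 : ∀ w : (𝓞 E)ˣ, (((w : (𝓞 E)ˣ) : E) : AlgebraicClosure K) ≠ 0 := by
        intro w hw
        have h1 : ((w : (𝓞 E)ˣ) : E) = 0 := by exact_mod_cast hw
        have h2 : ((w : (𝓞 E)ˣ) : 𝓞 E) = 0 :=
          (map_eq_zero_iff (algebraMap (𝓞 E) E) RingOfIntegers.coe_injective).mp h1
        exact w.ne_zero h2
      have h3 := (hS p K k ζ hζ).2.1 (((u.toMul : (𝓞 E)ˣ) : E) : AlgebraicClosure K)
        (((v.toMul : (𝓞 E)ˣ) : E) : AlgebraicClosure K) h (h0 _) (h0 _) (hh ζ hζM)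
        (hh _ (hEM (SetLike.coe_mem _))) (hh _ (hEM (SetLike.coe_mem _)))
      rw [← h3]
      rfl)

theorem t (hS : K_SPEC) : K_PSI := by
  classical
  intro p _ K _ _ k ζ hζ E M _ _ hEM hζM O _ _ _ _
  have h0 : ∀ w : (𝓞 E)ˣ, (((w : (𝓞 E)ˣ) : E) : AlgebraicClosure K) ≠ 0 := by
    intro w hw
    have h1 : ((w : (𝓞 E)ˣ) : E) = 0 := by exact_mod_cast hw
    have h2 : ((w : (𝓞 E)ˣ) : 𝓞 E) = 0 :=
          (map_eq_zero_iff (algebraMap (𝓞 E) E) RingOfIntegers.coe_injective).mp h1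
    exact w.ne_zero h2
  have hE : ∀ (h : AlgebraicClosure K ≃ₐ[K] AlgebraicClosure K), (∀ x ∈ M, h x = x) →
      ∀ u : (𝓞 E)ˣ, h (((u : (𝓞 E)ˣ) : E) : AlgebraicClosure K) =
        (((u : (𝓞 E)ˣ) : E) : AlgebraicClosure K) := fun h hh u =>
    hh _ (hEM (SetLike.coe_mem _))
  have hconj : ∀ (g h : AlgebraicClosure K ≃ₐ[K] AlgebraicClosure K), (∀ x ∈ M, h x = x) →
      ∀ x ∈ M, (g * h * g⁻¹) x = x := by
    intro g h hh x hx
    have h1 : g⁻¹ x ∈ M := by
      have h2 := AlgEquiv.restrictNormalHom_apply M g⁻¹ ⟨x, hx⟩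
      rw [← h2]
      exact SetLike.coe_mem _
    show g (h (g⁻¹ x)) = x
    rw [hh _ h1]
    exact AlgEquiv.apply_symm_apply g x
  let Ψ : (O ⊗[ℤ] Additive (𝓞 E)ˣ) →+
      ((AlgebraicClosure K ≃ₐ[K] AlgebraicClosure K) → O ⧸ Ideal.span {(p : O) ^ k}) :=
    { toFun := fun z h => if hh : ∀ x ∈ M, h x = x then pH O k (kap hS hζ hEM hζM h hh) z else 0
      map_zero' := by
        funext h
        show (if hh : ∀ x ∈ M, h x = x then pH O k (kap hS hζ hEM hζM h hh) 0 else 0) = 0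
        split_ifs with hh
        · rw [map_zero]
        · rfl
      map_add' := fun z z' => by
        funext h
        show (if hh : ∀ x ∈ M, h x = x then pH O k (kap hS hζ hEM hζM h hh) (z + z') else 0) =
          (if hh : ∀ x ∈ M, h x = x then pH O k (kap hS hζ hEM hζM h hh) z else 0) +
          (if hh : ∀ x ∈ M, h x = x then pH O k (kap hS hζ hEM hζM h hh) z' else 0)
        split_ifs with hh
        · rw [map_add]
        · rw [add_zero] }
  have hΨ : ∀ z h (hh : ∀ x ∈ M, h x = x), Ψ z h = pH O k (kap hS hζ hEM hζM h hh) z :=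
    fun z h hh => dif_pos hh
  refine ⟨Ψ, ?_, ?_, ?_, ?_⟩
  · intro z g h hg hh
    have hgh : ∀ x ∈ M, (g * h) x = x := fun x hx => by
      show g (h x) = x
      rw [hh x hx, hg x hx]
    rw [hΨ z g hg, hΨ z h hh, hΨ z (g * h) hgh]
    refine pH_add O k _ _ _ (fun u => ?_) z
    exact (hS p K k ζ hζ).2.2.1 _ g h (h0 _) (hg ζ hζM) (hE g hg _) (hh ζ hζM) (hE h hh _)
  · intro o z h hh
    rw [hΨ _ h hh, hΨ _ h hh, pH_smul]
  · intro g z h hh
    rw [hΨ _ h hh, hΨ _ _ (hconj g h hh)]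
    refine pH_act O k _ _ _ _ (fun u => ?_) z
    have h1 := (hS p K k ζ hζ).2.2.2.2 (((u.toMul : (𝓞 E)ˣ) : E) : AlgebraicClosure K) g h
      (h0 _) (hh ζ hζM) (hE h hh _)
    show kum p k ζ ((((ug E g u).toMul : (𝓞 E)ˣ) : E) : AlgebraicClosure K) (g * h * g⁻¹) =
      _ * kum p k ζ (((u.toMul : (𝓞 E)ˣ) : E) : AlgebraicClosure K) h
    rw [← h1]
    congr 1
    exact AlgEquiv.restrictNormalHom_apply E g _
  · intro ι _ b e h hh
    rw [hΨ _ h hh]
    exact pH_ker O k _ ι b _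

end Pool.Agent.Helper4.SD.K_PSI
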