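import Pool.Agent.Helper16.SD.GoalsS

/-!
Packet SD-U_TRD (helper4): the dimension of the `χ`-part does not depend on the field.
-/

set_option autoImplicit false

namespace Pool.Agent.Helper4.SD.U_TRD

open NumberField Module TensorProduct
open Pool.Agent.Helper51.SigLeo Pool.Agent.Helper16.SD

theorem fin_units (F : Type) [Field F] [NumberField F] :
    Module.Finite ℤ (Additive (𝓞 F)ˣ) := inferInstance

theorem conj_ext {M : Type} [AddCommGroup M] (k : Type) [Field k] [CharZero k] (f : M →+ M) :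
    (TensorProduct.AlgebraTensorModule.cancelBaseChange ℤ ℚ k k M).conj
      ((extEnd f : (ℚ ⊗[ℤ] M) →ₗ[ℚ] (ℚ ⊗[ℤ] M)).baseChange k) = extEnd f := by
  apply LinearMap.ext
  intro x
  induction x using TensorProduct.induction_on with
  | zero => rw [map_zero, map_zero]
  | tmul c m =>
    rw [LinearEquiv.conj_apply_apply, extEnd_tmul,
      TensorProduct.AlgebraTensorModule.cancelBaseChange_symm_tmul, LinearMap.baseChange_tmul,
      extEnd_tmul, TensorProduct.AlgebraTensorModule.cancelBaseChange_tmul, one_smul]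
  | add x y hx hy => rw [map_add, map_add, hx, hy]

theorem trace_ext {M : Type} [AddCommGroup M] [Module.Finite ℤ M] (k : Type) [Field k]
    [CharZero k] (f : M →+ M) :
    LinearMap.trace k (k ⊗[ℤ] M) (extEnd f) =
      ((LinearMap.trace ℚ (ℚ ⊗[ℤ] M) (extEnd f) : ℚ) : k) := by
  rw [← conj_ext k f, LinearMap.trace_conj', LinearMap.trace_baseChange]
  simp

section

variable {K F k : Type} [Field K] [Field F] [NumberField F] [Algebra K F] [Field k] [CharZero k]
  [Fintype (F ≃ₐ[K] F)] (χ : (F ≃ₐ[K] F) →* kˣ)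

/-- the projection -/
noncomputable def pr : (k ⊗[ℤ] Additive (𝓞 F)ˣ) →ₗ[k] (k ⊗[ℤ] Additive (𝓞 F)ˣ) :=
  ((Fintype.card (F ≃ₐ[K] F) : ℕ) : k)⁻¹ • ∑ g, ((χ g⁻¹ : kˣ) : k) • extEnd (unitsHom g)

theorem pr_apply (v : k ⊗[ℤ] Additive (𝓞 F)ˣ) :
    pr χ v = ((Fintype.card (F ≃ₐ[K] F) : ℕ) : k)⁻¹ •
      ∑ g, ((χ g⁻¹ : kˣ) : k) • extEnd (unitsHom g) v := by
  simp [pr, LinearMap.sum_apply]

theorem isProj : LinearMap.IsProj (gPart χ) (pr χ) := by
  have hn : ((Fintype.card (F ≃ₐ[K] F) : ℕ) : k) ≠ 0 := by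
    exact_mod_cast Fintype.card_ne_zero
  refine ⟨fun v h => ?_, fun v hv => ?_⟩
  · rw [pr_apply, map_smul, map_sum, smul_comm ((χ h : kˣ) : k)]
    congr 1
    rw [Finset.smul_sum, ← Equiv.sum_comp (Equiv.mulLeft h) (fun g => ((χ h : kˣ) : k) •
      ((χ g⁻¹ : kˣ) : k) • extEnd (unitsHom g) v)]
    refine Finset.sum_congr rfl fun g _ => ?_
    rw [Equiv.coe_mulLeft, map_smul, ← extEnd_comp, ← unitsHom_mul, smul_smul]
    congr 1
    rw [mul_inv_rev, map_mul, Units.val_mul, mul_comm ((χ g⁻¹ : kˣ) : k), ← mul_assoc,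
      ← Units.val_mul, ← map_mul, mul_inv_cancel, map_one, Units.val_one, one_mul]
  · rw [pr_apply]
    have h1 : ∀ g : F ≃ₐ[K] F, ((χ g⁻¹ : kˣ) : k) • extEnd (unitsHom g) v = v := by
      intro g
      rw [hv g, smul_smul, ← Units.val_mul, ← map_mul, inv_mul_cancel, map_one, Units.val_one,
        one_smul]
    rw [Finset.sum_congr rfl fun g _ => h1 g, Finset.sum_const, Finset.card_univ,
      ← Nat.cast_smul_eq_nsmul k, smul_smul, inv_mul_cancel₀ hn, one_smul]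

theorem fr : (finrank k (gPart χ) : k) = ((Fintype.card (F ≃ₐ[K] F) : ℕ) : k)⁻¹ *
    ∑ g, ((χ g⁻¹ : kˣ) : k) *
      ((LinearMap.trace ℚ (ℚ ⊗[ℤ] Additive (𝓞 F)ˣ) (extEnd (unitsHom g)) : ℚ) : k) := by
  rw [← (isProj χ).trace, pr, map_smul, map_sum, smul_eq_mul]
  congr 1
  refine Finset.sum_congr rfl fun g _ => ?_
  rw [map_smul, smul_eq_mul, trace_ext]

end

theorem fr' {K F E k : Type} [Field K] [Field F] [NumberField F] [Algebra K F] [Field E]
    [CharZero E] [Field k] [CharZero k] [Fintype (F ≃ₐ[K] F)] (j : E →+* k)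
    (χ : (F ≃ₐ[K] F) →* Eˣ) :
    (finrank k (gPart ((Units.map (j : E →* k)).comp χ)) : E) =
      ((Fintype.card (F ≃ₐ[K] F) : ℕ) : E)⁻¹ * ∑ g, ((χ g⁻¹ : Eˣ) : E) *
        ((LinearMap.trace ℚ (ℚ ⊗[ℤ] Additive (𝓞 F)ˣ) (extEnd (unitsHom g)) : ℚ) : E) := by
  apply j.injective
  rw [map_natCast, fr, map_mul, map_inv₀, map_natCast, map_sum]
  congr 1
  refine Finset.sum_congr rfl fun g _ => ?_
  rw [map_mul, map_ratCast]
  rfl

theorem t : U_TRD := by
  intro K F _ _ _ _ _ _ E k k' _ _ _ _ _ _ j j' χ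
  have : Fintype (F ≃ₐ[K] F) := Fintype.ofFinite _
  have h : (finrank k (gPart ((Units.map (j : E →* k)).comp χ)) : E) =
      (finrank k' (gPart ((Units.map (j' : E →* k')).comp χ)) : E) := by
    rw [fr', fr']
  exact_mod_cast h

end Pool.Agent.Helper4.SD.U_TRD
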